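import Mathlib
import Pool.Agent.K7.H49.ME.Cub

/-!
# Prime differences of consecutive terms of `h(n) + ⌊α P(n)⌋` for almost all `α`

Let `P_1, ..., P_k` be real polynomials of degree at least `3` with positive leading coefficients and `h_1, ..., h_k`
integer-valued sequences with `0 ≤ h_i(n+1) - h_i(n) ≤ (P_i(n+1) - P_i(n)) (log n) ^ B` (for instance `P_i = h_i = n ^ 3`, or
`h_i = 0`), and put `a_i(n) = h_i(n) + ⌊α_i P_i(n)⌋`. For every set `𝒩` of positive integers with at least `N ^ κ` elements in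
`(N, 2 N]` for infinitely many `N` (`κ > 0`) and almost all real `α_1, ..., α_k > 0` there are infinitely many of these `N`
such that for at least `c |𝒩 ∩ (N, 2 N]| / (log N) ^ k` of the `n` in `𝒩 ∩ (N, 2 N]` all the differences
`a_i(n+1) - a_i(n)` are prime; `c > 0` depends on `k` and a bound for the degrees only.
-/

set_option autoImplicit false

namespace Pool.Agent.Results.MP_22d6bb_nt.AlmostAllCubes

open Finset MeasureTheory Filter Polynomial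
open scoped Classical

/-- the set of the `n ∈ 𝒩` with `N < n ≤ 2 N` -/
noncomputable def block (𝒩 : Set ℕ) (N : ℕ) : Finset ℕ := (Ioc N (2 * N)).filter (fun n => n ∈ 𝒩)

/-- the sequence `h(n) + ⌊α P(n)⌋` -/
noncomputable def a (P : ℝ[X]) (h : ℕ → ℤ) (α : ℝ) (n : ℕ) : ℤ := h n + ⌊α * P.eval (n : ℝ)⌋

/-- the number of the `n ∈ 𝒩`, `N < n ≤ 2 N`, for which all the differences `a_i(n+1) - a_i(n)` are prime -/
noncomputable def count {k : ℕ} (P : Fin k → ℝ[X]) (h : Fin k → ℕ → ℤ) (α : Fin k → ℝ) (𝒩 : Set ℕ) (N : ℕ) : ℕ :=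
  ((block 𝒩 N).filter (fun n => ∀ i, ∃ q : ℕ, q.Prime ∧
    (q : ℤ) = a (P i) (h i) (α i) (n + 1) - a (P i) (h i) (α i) n)).card

theorem result (k d : ℕ) : ∃ c : ℝ, 0 < c ∧ ∀ (P : Fin k → ℝ[X]) (h : Fin k → ℕ → ℤ) (B : ℕ),
    (∀ i, 3 ≤ (P i).natDegree ∧ (P i).natDegree ≤ d ∧ 0 < (P i).leadingCoeff) →
    (∀ i, ∀ᶠ n : ℕ in atTop, 0 ≤ h i (n + 1) - h i n ∧
      ((h i (n + 1) : ℝ) - h i n) ≤ ((P i).eval ((n : ℝ) + 1) - (P i).eval (n : ℝ)) * Real.log n ^ B) →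
    ∀ κ : ℝ, 0 < κ → ∀ 𝒩 : Set ℕ, (∃ᶠ N : ℕ in atTop, (N : ℝ) ^ κ ≤ (block 𝒩 N).card) →
    ∀ᵐ α : Fin k → ℝ, (∀ i, 0 < α i) → ∃ᶠ N : ℕ in atTop, (N : ℝ) ^ κ ≤ (block 𝒩 N).card ∧
      c * (block 𝒩 N).card / Real.log N ^ k ≤ count P h α 𝒩 N := by
  refine ⟨(1 / 8 * (1 / (4 * (((d + 1 : ℕ) : ℝ) + 1)))) ^ k / 2, by positivity, ?_⟩
  intro P h B hP hh κ hκ 𝒩 h𝒩
  have hmain := Pool.Agent.K7.H49.ME.cub_metric k d P (fun i n => h i (n + 1) - h i n) B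
    (fun i => (hh i).mono fun n hn => ⟨hn.1, by push_cast; exact hn.2⟩) (fun i => (hP i).1) (fun i => (hP i).2.1)
    (fun i => (hP i).2.2) (block 𝒩) (fun N => filter_subset _ _) κ hκ h𝒩
  filter_upwards [hmain] with α hα hα0
  refine (hα hα0).mono fun N hN => ⟨hN.1, hN.2.trans (Nat.cast_le.2 (card_le_card ?_))⟩
  intro n hn
  obtain ⟨h1, h2⟩ := Finset.mem_filter.1 hn
  refine Finset.mem_filter.2 ⟨h1, fun i => ?_⟩
  have h3 := h2 i
  refine ⟨_, h3, ?_⟩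
  have h4 : 0 ≤ (h i (n + 1) - h i n) + (⌊α i * (P i).eval ((n : ℝ) + 1)⌋ - ⌊α i * (P i).eval (n : ℝ)⌋) := by
    by_contra hneg
    push Not at hneg
    rw [Int.toNat_of_nonpos hneg.le] at h3
    exact Nat.not_prime_zero h3
  rw [Int.toNat_of_nonneg h4]
  unfold a
  push_cast
  ring

end Pool.Agent.Results.MP_22d6bb_nt.AlmostAllCubes
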