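import Pool.Agent.K7.H64.LS.DenseS
import Pool.Agent.K7.H40.CB.Irr

/-!
# Sumsets of sets of `k` with `3 k ^ 2 + 3 k + 1` prime

A system is a finite family of different irreducible polynomials with integer coefficients, of positive degrees and
with positive leading coefficients, such that no prime divides the product of their values at every integer. Let
`f` be a system of `r` polynomials, one of which is `3 X ^ 2 + 3 X + 1 = (X + 1) ^ 3 - X ^ 3` (for example this
polynomial alone, `r = 1`), and let `g` be a system of `s` polynomials (for example the same one, or the polynomial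
`X`). Let `A` and `B` be nonempty sets of integers of two intervals of length `N`, such that all the polynomials of
`f` have prime values (or values without prime factors up to a fixed power of `N`) at the elements of `A`, and the
same holds for `B` and `g`. Then `A + B` is larger than `A` by the factor `(log N / L) ^ r`, up to a constant, where

* `L` is the logarithm of the inverses of the relative densities `|A| (log N) ^ r / N` and `|B| (log N) ^ s / N`,
* if both relative densities are at least `(log N) ^ (- 1 / 9)`, `L` is the double logarithm of the inverse of the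
  relative density of `B`.

The estimates are deduced from the general theorems of helper64 on sifted sets (`Pool/Agent/K7/H64/LS`).
-/

set_option autoImplicit false

namespace Pool.Agent.Results.MP_22d6bb_nt.DenseSumsets

open Finset Polynomial

/-- A system: different irreducible polynomials of positive degree with positive leading coefficients, such that
no prime divides the product of their values at every integer. -/
structure PolySystem {ι : Type} (f : ι → ℤ[X]) : Prop where
  irreducible : ∀ i, Irreducible (f i)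
  degree : ∀ i, 0 < (f i).natDegree
  leading : ∀ i, 0 < (f i).leadingCoeff
  different : Function.Injective f
  local_condition : ∀ p : ℕ, p.Prime → ∃ m : ℕ, ∀ i, ¬ (p : ℤ) ∣ (f i).eval (m : ℤ)

/-- All the numbers `|f_i(n)|` are prime, or no prime `p ≤ y` divides one of them. -/
def Sifted {ι : Type} (f : ι → ℤ[X]) (y : ℝ) (n : ℕ) : Prop :=
  (∀ i, ((f i).eval (n : ℤ)).natAbs.Prime) ∨
    ∀ p : ℕ, p.Prime → (∃ i, (p : ℤ) ∣ (f i).eval (n : ℤ)) → y < p

/-- The set of the sums `a + b`. -/
def sumset (A B : Finset ℕ) : Finset ℕ := (A ×ˢ B).image fun t => t.1 + t.2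

/-- The inverse of the relative density: `N / (|A| (log N) ^ r)`. -/
noncomputable def sparsity (N r : ℕ) (A : Finset ℕ) : ℝ := N / (A.card * Real.log N ^ r)

/-- **Sumsets of sets of `k` with `3 k ^ 2 + 3 k + 1` prime.**

* The polynomial `3 X ^ 2 + 3 X + 1` alone is a system.
* Let `f` be a system of `r` polynomials, one of which is `3 X ^ 2 + 3 X + 1`, let `g` be a system of `s`
  polynomials, and `κ > 0`. There is `c > 0` such that for all `x`, `y`, `N ≥ 2` and all nonempty sets
  `A` in `(x, x + N]`, `B` in `(y, y + N]`, such that the elements of `A` are sifted for `f` and `N ^ κ`, those of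
  `B` for `g` and `N ^ κ`, with `α = N / (|A| (log N) ^ r)` and `β = N / (|B| (log N) ^ s)`:
  `|A + B| ≥ c |A| (log N / (log (2 + α) + log (2 + β))) ^ r`; and if `α` and `β` are at most
  `(log N) ^ (1 / 9)`, then `|A + B| ≥ c |A| (log N / log (2 + log (2 + β))) ^ r` and
  `|A + B| ≥ c |B| (log N / log (2 + log (2 + α))) ^ s`. -/
theorem result :
    PolySystem (fun _ : Unit => (3 * X ^ 2 + 3 * X + 1 : ℤ[X])) ∧
    ∀ (ι ι' : Type) [Fintype ι] [Fintype ι'] (f : ι → ℤ[X]) (g : ι' → ℤ[X]), PolySystem f → PolySystem g →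
      (∃ i, f i = 3 * X ^ 2 + 3 * X + 1) → ∀ κ : ℝ, 0 < κ →
      ∃ c : ℝ, 0 < c ∧ ∀ (x y N : ℕ) (A B : Finset ℕ), 2 ≤ N → A.Nonempty → B.Nonempty →
        A ⊆ Ioc x (x + N) → B ⊆ Ioc y (y + N) →
        (∀ n ∈ A, Sifted f ((N : ℝ) ^ κ) n) → (∀ n ∈ B, Sifted g ((N : ℝ) ^ κ) n) →
        c * A.card * (Real.log N / (Real.log (2 + sparsity N (Fintype.card ι) A) +
          Real.log (2 + sparsity N (Fintype.card ι') B))) ^ Fintype.card ι ≤ ((sumset A B).card : ℝ) ∧
        (sparsity N (Fintype.card ι) A ≤ Real.log N ^ (1 / 9 : ℝ) →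
          sparsity N (Fintype.card ι') B ≤ Real.log N ^ (1 / 9 : ℝ) →
          c * A.card * (Real.log N / Real.log (2 + Real.log (2 + sparsity N (Fintype.card ι') B))) ^
            Fintype.card ι ≤ ((sumset A B).card : ℝ) ∧
          c * B.card * (Real.log N / Real.log (2 + Real.log (2 + sparsity N (Fintype.card ι) A))) ^
            Fintype.card ι' ≤ ((sumset A B).card : ℝ)) := by
  have hcub : (3 * X ^ 2 + 3 * X + 1 : ℤ[X]) = Pool.Agent.K7.H40.CB.cuban := by
    unfold Pool.Agent.K7.H40.CB.cuban
    rw [show (C (3 : ℤ) : ℤ[X]) = 3 from map_ofNat C 3, map_one]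
  refine ⟨?_, ?_⟩
  · rw [hcub]
    refine ⟨fun _ => Pool.Agent.K7.H40.CB.cuban_irreducible,
      fun _ => by rw [Pool.Agent.K7.H40.CB.cuban_natDegree]; norm_num,
      fun _ => by rw [Pool.Agent.K7.H40.CB.cuban_leadingCoeff]; norm_num,
      fun _ _ _ => rfl,
      fun p hp => ⟨0, fun _ => Pool.Agent.K7.H40.CB.cuban_not_dvd p hp⟩⟩
  · intro ι ι' _ _ f g hf hg _ κ hκ
    have hsf : Pool.Agent.W123.RU.Poly.Sys f :=
      ⟨hf.irreducible, hf.degree, hf.leading, hf.different, hf.local_condition⟩
    have hsg : Pool.Agent.W123.RU.Poly.Sys g :=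
      ⟨hg.irreducible, hg.degree, hg.leading, hg.different, hg.local_condition⟩
    obtain ⟨C1, hC1, h1⟩ := Pool.Agent.K7.H64.LS.sums_sys f hsf g hsg hκ
    obtain ⟨C2, hC2, h2⟩ := Pool.Agent.K7.H64.LS.dense_sys f hsf g hsg hκ
    obtain ⟨C3, hC3, h3⟩ := Pool.Agent.K7.H64.LS.dense_sys g hsg f hsf hκ
    refine ⟨1 / (C1 + C2 + C3), by positivity, ?_⟩
    intro x y N A B hN hAn hBn hA hB hSA hSB
    have hN2 : (2 : ℝ) ≤ N := by exact_mod_cast hN
    have hlN : 0 < Real.log N := Real.log_pos (by linarith)
    have hA0 : (0 : ℝ) < A.card := by exact_mod_cast card_pos.2 hAn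
    have hB0 : (0 : ℝ) < B.card := by exact_mod_cast card_pos.2 hBn
    have hgf : ∀ n ∈ A, Pool.Agent.K7.H64.LS.Good f κ N n := fun n hn => (hSA n hn).symm
    have hgg : ∀ n ∈ B, Pool.Agent.K7.H64.LS.Good g κ N n := fun n hn => (hSB n hn).symm
    have hsum : ∀ m ∈ A, ∀ n ∈ B, m + n ∈ sumset A B := fun m hm n hn =>
      mem_image.2 ⟨(m, n), mem_product.2 ⟨hm, hn⟩, rfl⟩
    have hsum' : ∀ m ∈ B, ∀ n ∈ A, m + n ∈ sumset A B := fun m hm n hn =>
      mem_image.2 ⟨(n, m), mem_product.2 ⟨hn, hm⟩, by simp only; ring⟩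
    obtain ⟨T, hT⟩ : ∃ T : ℝ, T = ((sumset A B).card : ℝ) := ⟨_, rfl⟩
    have hT0 : 0 ≤ T := by rw [hT]; positivity
    have hsp : ∀ (r : ℕ) (D : Finset ℕ), 0 ≤ sparsity N r D := fun r D => by
      unfold sparsity
      positivity
    have hlog : ∀ t : ℝ, 0 ≤ t → 0 < Real.log (2 + t) := fun t ht => Real.log_pos (by linarith)
    -- from an upper bound for `D (log N) ^ r` to the form of the theorem
    have conv : ∀ (r : ℕ) (D L C : ℝ), 0 < D → 0 < L → 0 < C → C ≤ C1 + C2 + C3 →
        D * Real.log N ^ r ≤ C * L ^ r * T →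
        1 / (C1 + C2 + C3) * D * (Real.log N / L) ^ r ≤ T := by
      intro r D L C hD hL hC hCle h
      rw [div_pow, ← mul_div_assoc, div_le_iff₀ (by positivity), one_div, mul_assoc,
        inv_mul_le_iff₀ (by positivity)]
      refine h.trans ?_
      have : C * (L ^ r * T) ≤ (C1 + C2 + C3) * (L ^ r * T) :=
        mul_le_mul_of_nonneg_right hCle (by positivity)
      calc C * L ^ r * T = C * (L ^ r * T) := by ring
        _ ≤ (C1 + C2 + C3) * (L ^ r * T) := this
        _ = (C1 + C2 + C3) * (T * L ^ r) := by ring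
    rw [← hT]
    refine ⟨?_, fun hdA hdB => ⟨?_, ?_⟩⟩
    · have e1 := h1 N hN x y A B (sumset A B) hA hB hgf hgg hAn hBn hsum
      rw [← hT] at e1
      exact conv _ _ _ C1 hA0 (add_pos (hlog _ (hsp _ _)) (hlog _ (hsp _ _))) hC1 (by linarith) e1
    · have e2 := h2 N hN x y A B (sumset A B) hA hB hgf hgg hAn hBn hsum hdA hdB
      rw [← hT] at e2
      exact conv _ _ _ C2 hA0 (hlog _ (hlog _ (hsp _ _)).le) hC2 (by linarith) e2
    · have e3 := h3 N hN y x B A (sumset A B) hB hA hgg hgf hBn hAn hsum' hdB hdA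
      rw [← hT] at e3
      exact conv _ _ _ C3 hB0 (hlog _ (hlog _ (hsp _ _)).le) hC3 (by linarith) e3

end Pool.Agent.Results.MP_22d6bb_nt.DenseSumsets
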