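import Pool.Agent.K7.H69.JP.Core

/-!
Squarefree differences `3 m^2 + 3 m + 1 = (m+1)^3 - m^3` of consecutive cubes: the number of prime factors
modulo `k` jointly with the parities of the numbers of prime factors in all the residue classes modulo `M`.
-/

set_option autoImplicit false

namespace Pool.Agent.Results.MP_22d6bb_nt.ParityPatterns

open Finset Filter

/-- `m` and `n` have the same number of prime factors modulo `k` and, for every residue class modulo `M`,
numbers of prime factors in this class of the same parity -/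
def SamePattern (k M m n : ℕ) : Prop :=
  m.primeFactors.card ≡ n.primeFactors.card [MOD k] ∧
    ∀ a : ℕ, (m.primeFactors.filter (fun p : ℕ => p ≡ a [MOD M])).card ≡
      (n.primeFactors.filter (fun p : ℕ => p ≡ a [MOD M])).card [MOD 2]

open scoped Classical in
/-- the number of the integers `0 ≤ m ≤ X`, `m ≡ u mod q`, for which `3 m^2 + 3 m + 1` is squarefree
and has the same pattern as `n` -/
noncomputable def count (k M q u n X : ℕ) : ℕ :=
  ((range (X + 1)).filter (fun m : ℕ => m ≡ u [MOD q] ∧ Squarefree (3 * m ^ 2 + 3 * m + 1) ∧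
    SamePattern k M (3 * m ^ 2 + 3 * m + 1) n)).card

open scoped Classical in
/-- the pairs `(d, d')` of positive integers `≤ X` with a squarefree product `d d' = 3 (3 m^2 + 3 m + 1)`,
`m ≥ 0`, `m ≡ u mod q` -/
noncomputable def Pairs (q u X : ℕ) : Finset (ℕ × ℕ) :=
  ((Icc 1 X) ×ˢ (Icc 1 X)).filter (fun p => Squarefree (p.1 * p.2) ∧
    ∃ m : ℕ, p.1 * p.2 = 3 * (3 * m ^ 2 + 3 * m + 1) ∧ m ≡ u [MOD q])

open scoped Classical in
/-- those of them for which `d d' / 3` has the same pattern as `n` -/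
noncomputable def PairsLike (k M q u n X : ℕ) : Finset (ℕ × ℕ) :=
  (Pairs q u X).filter (fun p => SamePattern k M (p.1 * p.2 / 3) n)

open scoped Classical in
/-- the set of the positive integers `X` with `P X` has logarithmic density `0` -/
def LogNull (P : ℕ → Prop) : Prop :=
  Tendsto (fun Z : ℕ => (∑ X ∈ (Icc 1 Z).filter P, 1 / (X : ℝ)) / Real.log Z) atTop (nhds 0)

open Pool.Agent.K7.H69.JP (cn Pat)

lemma exists_root {p : ℕ} (hp : p.Prime) (h : p % 3 = 1) : ∃ x : ℤ, (p : ℤ) ∣ x ^ 2 + (1 : ℕ) * x + (1 : ℕ) := by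
  have := Fact.mk hp
  have h3 : 3 ∣ Fintype.card (ZMod p)ˣ := by
    rw [ZMod.card_units]
    omega
  have : Fact (Nat.Prime 3) := ⟨Nat.prime_three⟩
  obtain ⟨g, hg⟩ := exists_prime_orderOf_dvd_card 3 h3
  obtain ⟨y, hy⟩ : ∃ y : ZMod p, y = (g : ZMod p) := ⟨_, rfl⟩
  have h4 : y ^ 3 = 1 := by
    have := pow_orderOf_eq_one g
    rw [hg] at this
    rw [hy, ← Units.val_pow_eq_pow_val, this, Units.val_one]
  have h5 : y ≠ 1 := by
    intro h6
    have : g = 1 := by
      apply Units.ext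
      rw [← hy, h6, Units.val_one]
    rw [this, orderOf_one] at hg
    omega
  have h6 : y ^ 2 + y + 1 = 0 := by
    have h7 : (y - 1) * (y ^ 2 + y + 1) = 0 := by
      have : (y - 1) * (y ^ 2 + y + 1) = y ^ 3 - 1 := by ring
      rw [this, h4, sub_self]
    exact (mul_eq_zero.1 h7).resolve_left (sub_ne_zero.2 h5)
  refine ⟨(y.val : ℤ), ?_⟩
  rw [← ZMod.intCast_zmod_eq_zero_iff_dvd]
  push_cast
  rw [ZMod.natCast_zmod_val, one_mul]
  exact h6

lemma pf3 {w : ℕ} (hw : w ≠ 0) (h3 : ¬ 3 ∣ w) : (3 * w).primeFactors = insert 3 w.primeFactors ∧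
    3 ∉ w.primeFactors := by
  refine ⟨?_, fun h => h3 (Nat.dvd_of_mem_primeFactors h)⟩
  rw [Nat.primeFactors_mul (by norm_num) hw, Nat.Prime.primeFactors Nat.prime_three]
  rfl

lemma same_iff {k M w n : ℕ} (U : Finset (ZMod M)) (hU : ∀ x, x ∈ U) (hw : w ≠ 0) (h3 : ¬ 3 ∣ w)
    (hn : n ≠ 0) (h3n : ¬ 3 ∣ n) (hM : 1 ≤ M) : Pat k M U (3 * w) (3 * n) ↔ SamePattern k M w n := by
  obtain ⟨e1, e2⟩ := pf3 hw h3
  obtain ⟨f1, f2⟩ := pf3 hn h3n
  have h5 : ∀ (S : Finset ℕ) (a : ℕ), S.filter (fun p : ℕ => (p : ZMod M) = (a : ZMod M)) =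
      S.filter (fun p : ℕ => p ≡ a [MOD M]) := by
    intro S a
    refine filter_congr fun p _ => ?_
    exact ZMod.natCast_eq_natCast_iff p a M
  have key : ∀ a : ℕ, (cn M (a : ZMod M) (3 * w) % 2 = cn M (a : ZMod M) (3 * n) % 2 ↔
      (w.primeFactors.filter (fun p : ℕ => p ≡ a [MOD M])).card ≡
      (n.primeFactors.filter (fun p : ℕ => p ≡ a [MOD M])).card [MOD 2]) := by
    intro a
    unfold cn
    rw [e1, f1, h5, h5, filter_insert, filter_insert]
    show _ ↔ (w.primeFactors.filter (fun p : ℕ => p ≡ a [MOD M])).card % 2 =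
      (n.primeFactors.filter (fun p : ℕ => p ≡ a [MOD M])).card % 2
    split_ifs with h6
    · rw [card_insert_of_notMem (fun hh => e2 (mem_filter.1 hh).1),
        card_insert_of_notMem (fun hh => f2 (mem_filter.1 hh).1)]
      omega
    · exact Iff.rfl
  unfold Pat SamePattern
  rw [e1, f1, card_insert_of_notMem e2, card_insert_of_notMem f2]
  constructor
  · rintro ⟨h1, h2⟩
    exact ⟨Nat.ModEq.add_right_cancel' 1 h1, fun a => (key a).1 (h2 _ (hU _))⟩
  · rintro ⟨h1, h2⟩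
    refine ⟨h1.add_right 1, fun x _ => ?_⟩
    have : NeZero M := ⟨by omega⟩
    have h6 := (key x.val).2 (h2 x.val)
    rw [ZMod.natCast_zmod_val] at h6
    exact h6

/-- Let `k, M ≥ 1`. There is `ρ > 0` such that the following holds. Let `q ≥ 1`, `M ∣ q`, and let `u ≥ 0`
be such that `3 u^2 + 3 u + 1` is prime to `M` and not divisible by the square of a prime whose square
divides `q`. Let `n` be squarefree, with all prime factors congruent to `1` modulo `3`, and
`n ≡ 3 u^2 + 3 u + 1 mod M`.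

1. There are at least `c X` pairs in `Pairs q u X`, for some `c > 0` and all large `X`.
2. For every `δ > 0` and almost all `X` the number of the pairs in `Pairs q u X` such that `d d' / 3` has a
   number of prime factors congruent modulo `k` to that of `n`, and numbers of prime factors in the residue
   classes modulo `M` of the same parities as those of `n`, differs from `ρ` times the number of all pairs
   in `Pairs q u X` by at most `δ X`. (The constant `ρ` is the same for all `n`.)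
3. For every `ε > 0` and almost all `X`, at least `X / (log X)^(log 2 + ε)` of the integers `0 ≤ m ≤ X`,
   `m ≡ u mod q`, have `3 m^2 + 3 m + 1` squarefree, with a number of prime factors congruent modulo `k` to
   that of `n`, and with numbers of prime factors in the residue classes modulo `M` of the same parities as
   those of `n`.

(Conversely, if `m ≡ u mod q` and `3 m^2 + 3 m + 1` is squarefree, then it is such an integer `n`. So every
pattern which is not excluded for a product of primes `p ≡ 1 mod 3` in the residue class of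
`3 u^2 + 3 u + 1` occurs.) -/
theorem result (k M : ℕ) (hk : 1 ≤ k) (hM : 1 ≤ M) : ∃ ρ : ℝ, 0 < ρ ∧ ∀ q u : ℕ, 1 ≤ q → M ∣ q →
    Nat.Coprime (3 * u ^ 2 + 3 * u + 1) M →
    (∀ l : ℕ, l.Prime → l ^ 2 ∣ q → ¬ l ^ 2 ∣ 3 * u ^ 2 + 3 * u + 1) →
    (∃ c : ℝ, 0 < c ∧ ∃ X₀ : ℕ, ∀ X : ℕ, X₀ ≤ X → c * X ≤ ((Pairs q u X).card : ℝ)) ∧
    ∀ n : ℕ, Squarefree n → (∀ p : ℕ, p.Prime → p ∣ n → p % 3 = 1) →
      n ≡ 3 * u ^ 2 + 3 * u + 1 [MOD M] →
      (∀ δ : ℝ, 0 < δ → LogNull (fun X => δ * X <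
        |((PairsLike k M q u n X).card : ℝ) - ρ * (Pairs q u X).card|)) ∧
      ∀ ε : ℝ, 0 < ε →
        LogNull (fun X => (count k M q u n X : ℝ) < X / Real.log X ^ (Real.log 2 + ε)) := by
  classical
  have : NeZero M := ⟨by omega⟩
  obtain ⟨f, χ, hF⟩ := Pool.Agent.W251.EG.fd9 1 1 (by simp)
  have hS := Pool.Agent.W251.EG.sps9 1 1 (by simp)
  obtain ⟨ρ, hρ, hmain⟩ := Pool.Agent.K7.H69.JP.core hF hS (k := k) (M := M) hk hM Finset.univ
  refine ⟨ρ, hρ, fun q u hq hMq hc hu => ?_⟩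
  have h3F : ∀ m : ℕ, ¬ 3 ∣ 3 * m ^ 2 + 3 * m + 1 := by
    intro m h
    omega
  -- the residue class
  have hclass : ∀ x : ℕ, x ≡ 3 * u + 1 [MOD 3 * q] → ∃ m : ℕ, x = 3 * m + 1 ∧ m ≡ u [MOD q] := by
    intro x hx
    have h1 : x % 3 = 1 := by
      have h2 : x ≡ 3 * u + 1 [MOD 3] := hx.of_mul_right q
      unfold Nat.ModEq at h2
      omega
    refine ⟨x / 3, by omega, ?_⟩
    have h2 : x = 3 * (x / 3) + 1 := by omega
    rw [h2] at hx
    exact Nat.ModEq.mul_left_cancel' (by norm_num) (Nat.ModEq.add_right_cancel' 1 hx)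
  have hclass' : ∀ m : ℕ, m ≡ u [MOD q] → 3 * m + 1 ≡ 3 * u + 1 [MOD 3 * q] := by
    intro m hm
    exact (Nat.ModEq.mul_left' 3 hm).add_right 1
  have hFcong : ∀ m : ℕ, m ≡ u [MOD q] → 3 * m ^ 2 + 3 * m + 1 ≡ 3 * u ^ 2 + 3 * u + 1 [MOD M] := by
    intro m hm
    have h1 : m ≡ u [MOD M] := hm.of_dvd hMq
    exact (((h1.pow 2).mul_left 3).add (h1.mul_left 3)).add_right 1
  have hval : ∀ m : ℕ, (3 * m + 1) ^ 2 + 1 * (3 * m + 1) + 1 = 3 * (3 * m ^ 2 + 3 * m + 1) := by
    intro m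
    ring
  have hcopn : ∀ x : ℕ, x ≡ 3 * u ^ 2 + 3 * u + 1 [MOD M] → Nat.Coprime x M := by
    intro x hx
    rw [Nat.Coprime, hx.gcd_eq]
    exact hc
  have hndM : ∀ x : ℕ, x ≡ 3 * u ^ 2 + 3 * u + 1 [MOD M] → ∀ p : ℕ, p.Prime → p ∣ x → ¬ p ∣ M := by
    intro x hx p hp h1 h2
    have h3 := Nat.dvd_gcd h1 h2
    rw [hcopn x hx] at h3
    exact hp.one_lt.ne' (Nat.dvd_one.1 h3)
  have hqa : ∀ l : ℕ, l.Prime → l ^ 2 ∣ 3 * q →
      ¬ l ^ 2 ∣ (3 * u + 1) ^ 2 + 1 * (3 * u + 1) + 1 := by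
    intro l hl h1 h2
    rw [hval u] at h2
    by_cases h3 : l = 3
    · subst h3
      have h4 : 3 ∣ 3 * u ^ 2 + 3 * u + 1 := by
        have h5 : 3 * 3 ∣ 3 * (3 * u ^ 2 + 3 * u + 1) := by
          rw [← pow_two]
          exact h2
        exact Nat.dvd_of_mul_dvd_mul_left (by norm_num) h5
      exact h3F u h4
    · have h4 : Nat.Coprime (l ^ 2) 3 := by
        refine Nat.Coprime.pow_left 2 ?_
        exact (Nat.coprime_primes hl Nat.prime_three).2 h3
      exact hu l hl (h4.dvd_of_dvd_mul_left h1) (h4.dvd_of_dvd_mul_left h2)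
  have hBP : ∀ X : ℕ, Pool.Agent.K7.H69.JP.BB 1 1 (3 * q) (3 * u + 1) X = Pairs q u X := by
    intro X
    ext p
    rw [Pool.Agent.K7.H69.JP.mem_BB]
    unfold Pairs
    rw [mem_filter, mem_product, mem_Icc, mem_Icc]
    constructor
    · rintro ⟨h1, h2, x, -, h3, h4⟩
      obtain ⟨m, rfl, hm⟩ := hclass x h4
      rw [hval m] at h3
      exact ⟨h1, h2, m, h3, hm⟩
    · rintro ⟨h1, h2, m, h3, hm⟩
      refine ⟨h1, h2, 3 * m + 1, by omega, ?_, hclass' m hm⟩
      rw [hval m, h3]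
  refine ⟨?_, fun n hn hn3 hnu => ?_⟩
  · obtain ⟨c, hc0, X₀, hX⟩ := hS (3 * q) (3 * u + 1) (by omega) (fun l hl hlq hd => hqa l hl hlq (by
      exact_mod_cast hd))
    refine ⟨c, hc0, X₀, fun X hX0 => ?_⟩
    rw [← hBP X, Pool.Agent.K7.H69.JP.BB_eq]
    exact hX X hX0
  have h3n : ¬ 3 ∣ n := by
    intro h
    have := hn3 3 Nat.prime_three h
    omega
  have hn0 : n ≠ 0 := hn.ne_zero
  have hcop3 : Nat.Coprime 3 n := (Nat.Prime.coprime_iff_not_dvd Nat.prime_three).2 h3n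
  have hsf3 : Squarefree (3 * n) := by
    rw [Nat.squarefree_mul hcop3]
    exact ⟨Nat.prime_three.prime.squarefree, hn⟩
  have hadm : Pool.Agent.K7.H69.JP.Adm 1 1 M (3 * q) (3 * u + 1) (3 * n) := by
    intro x hx _ _
    obtain ⟨m, rfl, hm⟩ := hclass x hx
    refine ⟨3, 3 * m ^ 2 + 3 * m + 1, n, hval m, rfl, ?_, ?_, ?_⟩
    · intro p hp hpd
      refine ⟨⟨((3 * m + 1 : ℕ) : ℤ), ?_⟩, hndM _ (hFcong m hm) p hp hpd⟩
      have h1 : (p : ℤ) ∣ (((3 * m + 1) ^ 2 + 1 * (3 * m + 1) + 1 : ℕ) : ℤ) := by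
        rw [hval m]
        exact_mod_cast hpd.mul_left 3
      push_cast at h1 ⊢
      exact h1
    · intro p hp hpd
      exact ⟨exists_root hp (hn3 p hp hpd), hndM _ hnu p hp hpd⟩
    · rw [ZMod.natCast_eq_natCast_iff]
      exact (hFcong m hm).trans hnu.symm
  obtain ⟨hA, hB⟩ := hmain (3 * q) (3 * u + 1) (by omega) hqa (3 * n) hsf3 hadm
  refine ⟨fun δ hδ => ?_, fun ε hε => ?_⟩
  · have h1 := hA δ hδ
    have h2 : ∀ X : ℕ, (Pool.Agent.K7.H69.JP.BB 1 1 (3 * q) (3 * u + 1) X).filter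
        (fun p => Pat k M univ (p.1 * p.2) (3 * n)) = PairsLike k M q u n X := by
      intro X
      unfold PairsLike
      rw [hBP X]
      refine filter_congr fun p hp => ?_
      unfold Pairs at hp
      obtain ⟨-, -, m, h3, -⟩ := mem_filter.1 hp
      rw [h3, Nat.mul_div_cancel_left _ (by norm_num : 0 < 3)]
      exact same_iff univ (fun x => mem_univ x) (by omega) (h3F m) hn0 h3n hM
    have h3 := Pool.Agent.TH890.DV.LogNull.of_ev (Q := fun X : ℕ => δ * X <
      |((PairsLike k M q u n X).card : ℝ) - ρ * (Pairs q u X).card|) 0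
      (fun X _ hlt => by rw [h2 X, hBP X]; exact hlt) h1
    unfold Pool.Agent.TH890.DV.LogNull at h3
    unfold LogNull
    convert h3 using 5
  have hle : ∀ X : ℕ, ((range (X + 1)).filter (fun x : ℕ => 1 ≤ x + 1 ∧
      x ≡ 3 * u + 1 [MOD 3 * q] ∧ Squarefree (x ^ 2 + 1 * x + 1) ∧
      Pat k M univ (x ^ 2 + 1 * x + 1) (3 * n))).card ≤ count k M q u n X := by
    intro X
    unfold count
    refine card_le_card_of_injOn (fun x => x / 3) ?_ ?_
    · intro x hx
      rw [mem_coe, mem_filter, mem_range] at hx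
      obtain ⟨h1, -, h2, h3, h4⟩ := hx
      obtain ⟨m, rfl, hm⟩ := hclass x h2
      rw [hval m] at h3 h4
      have h5 : (3 * m + 1) / 3 = m := by omega
      rw [mem_coe, mem_filter, mem_range]
      beta_reduce
      rw [h5]
      refine ⟨by omega, hm, h3.of_mul_right, ?_⟩
      exact (same_iff univ (fun x => mem_univ x) (by omega) (h3F m) hn0 h3n hM).1 h4
    · intro x hx y hy hxy
      rw [mem_coe, mem_filter] at hx hy
      obtain ⟨m, rfl, -⟩ := hclass x hx.2.2.1
      obtain ⟨m', rfl, -⟩ := hclass y hy.2.2.1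
      have h5 : (3 * m + 1) / 3 = (3 * m' + 1) / 3 := hxy
      omega
  have hmono := Pool.Agent.TH890.DV.LogNull.of_ev
    (Q := fun X : ℕ => (count k M q u n X : ℝ) < X / Real.log X ^ (Real.log 2 + ε)) 0
    (fun X _ hlt => lt_of_le_of_lt (by exact_mod_cast hle X) hlt) (hB ε hε)
  unfold Pool.Agent.TH890.DV.LogNull at hmono
  unfold LogNull
  convert hmono using 5

end Pool.Agent.Results.MP_22d6bb_nt.ParityPatterns
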