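import Pool.Agent.K7.H40.CB.Irr

/-!
# Trigonometric polynomials over the `k` with `3 k ^ 2 + 3 k + 1` prime

A system is a finite family of different irreducible polynomials with integer coefficients, of positive degrees and
with positive leading coefficients, such that no prime divides the product of their values at every integer. We
consider systems of `r` polynomials, one of which is `3 X ^ 2 + 3 X + 1 = (X + 1) ^ 3 - X ^ 3`; the polynomial
`3 X ^ 2 + 3 X + 1` alone is such a system, with `r = 1`. For arbitrary complex numbers `a n`, supported on integers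
`n` of an interval of length `N` at which all polynomials of the system have prime values (or values without prime
factors up to a fixed power of `N`) we show

* the large sieve inequality at `k` points with spacing `δ`, with the gain `(log (2 k) / log N) ^ r` over the
  bound `N + 1 / δ`,
* for all `p > 2` the restriction theorem: the norms of the trigonometric polynomials in `L ^ p` have the order which
  is expected for sets with `N / (log N) ^ r` elements.

The estimates are deduced from the general theorems of helper64 on sifted sets (`Pool/Agent/K7/H64/LS`).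
-/

set_option autoImplicit false

namespace Pool.Agent.Results.MP_22d6bb_nt.RestrictionTheorem

open Finset Polynomial

/-- A system: different irreducible polynomials of positive degree with positive leading coefficients, such that
no prime divides the product of their values at every integer. -/
structure PolySystem {ι : Type} (f : ι → ℤ[X]) : Prop where
  irreducible : ∀ i, Irreducible (f i)
  degree : ∀ i, 0 < (f i).natDegree
  leading : ∀ i, 0 < (f i).leadingCoeff
  different : Function.Injective f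
  local_condition : ∀ p : ℕ, p.Prime → ∃ m : ℕ, ∀ i, ¬ (p : ℤ) ∣ (f i).eval (m : ℤ)

/-- All the numbers `|f_i(n)|` are prime, or no prime `p ≤ y` divides one of them. -/
def Sifted {ι : Type} (f : ι → ℤ[X]) (y : ℝ) (n : ℕ) : Prop :=
  (∀ i, ((f i).eval (n : ℤ)).natAbs.Prime) ∨
    ∀ p : ℕ, p.Prime → (∃ i, (p : ℤ) ∣ (f i).eval (n : ℤ)) → y < p

/-- **Large sieve at few points and restriction theorem for the `k` with `3 k ^ 2 + 3 k + 1` prime.**

* The polynomial `3 X ^ 2 + 3 X + 1` alone is a system.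
* Let `f` be a system of `r` polynomials, one of which is `3 X ^ 2 + 3 X + 1`, and let `κ > 0`. There is `C` such
  that for all `A`, all `N ≥ 2`, all sets `S` of integers `n` in `(A, A + N]` which are sifted for `f` and
  `N ^ κ`, all complex numbers `a n`:
  the sum over `k` real numbers `α_i` with pairwise distance at least `δ` modulo `1` of the numbers
  `|∑ a n e(n α_i)| ^ 2`, with `n` in `S`, is at most `C (N + 1 / δ) (log (2 k) / log N) ^ r ∑ |a n| ^ 2`.
* For every `p > 2` there is `C` such that for all such `A`, `N`, `S`, `a` the integral of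
  `|∑ a n e(n α)| ^ p` over `0 ≤ α ≤ 1` is at most
  `(C / N) (N / (log N) ^ r * ∑ |a n| ^ 2) ^ (p / 2)`. -/
theorem result :
    PolySystem (fun _ : Unit => (3 * X ^ 2 + 3 * X + 1 : ℤ[X])) ∧
    ∀ (ι : Type) [Fintype ι] (f : ι → ℤ[X]), PolySystem f → (∃ i, f i = 3 * X ^ 2 + 3 * X + 1) →
      ∀ κ : ℝ, 0 < κ →
      (∃ C : ℝ, 0 < C ∧ ∀ (A N : ℕ) (S : Finset ℕ), 2 ≤ N →
        S ⊆ Ioc A (A + N) → (∀ n ∈ S, Sifted f ((N : ℝ) ^ κ) n) →
        ∀ (k : ℕ) (α : Fin k → ℝ) (δ : ℝ), 0 < δ →
          (∀ i j : Fin k, i ≠ j → ∀ m : ℤ, δ ≤ |α i - α j - m|) →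
          ∀ a : ℕ → ℂ,
            ∑ i : Fin k, ‖∑ n ∈ S, a n * Complex.exp (2 * Real.pi * Complex.I * n * α i)‖ ^ 2 ≤
              C * ((N : ℝ) + 1 / δ) * (Real.log (2 * k) / Real.log N) ^ Fintype.card ι *
                ∑ n ∈ S, ‖a n‖ ^ 2) ∧
      ∀ p : ℝ, 2 < p → ∃ C : ℝ, 0 < C ∧ ∀ (A N : ℕ) (S : Finset ℕ), 2 ≤ N →
        S ⊆ Ioc A (A + N) → (∀ n ∈ S, Sifted f ((N : ℝ) ^ κ) n) → ∀ a : ℕ → ℂ,
          ∫ α in (0 : ℝ)..1, ‖∑ n ∈ S, a n * Complex.exp (2 * Real.pi * Complex.I * n * α)‖ ^ p ≤
            C / N * (N / Real.log N ^ Fintype.card ι * ∑ n ∈ S, ‖a n‖ ^ 2) ^ (p / 2) := by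
  have hcub : (3 * X ^ 2 + 3 * X + 1 : ℤ[X]) = Pool.Agent.K7.H40.CB.cuban := by
    unfold Pool.Agent.K7.H40.CB.cuban
    rw [show (C (3 : ℤ) : ℤ[X]) = 3 from map_ofNat C 3, map_one]
  refine ⟨?_, ?_⟩
  · rw [hcub]
    refine ⟨fun _ => Pool.Agent.K7.H40.CB.cuban_irreducible,
      fun _ => by rw [Pool.Agent.K7.H40.CB.cuban_natDegree]; norm_num,
      fun _ => by rw [Pool.Agent.K7.H40.CB.cuban_leadingCoeff]; norm_num,
      fun _ _ _ => rfl,
      fun p hp => ⟨0, fun _ => Pool.Agent.K7.H40.CB.cuban_not_dvd p hp⟩⟩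
  · intro ι _ f hf _ κ hκ
    have hsys : Pool.Agent.W123.RU.Poly.Sys f :=
      ⟨hf.irreducible, hf.degree, hf.leading, hf.different, hf.local_condition⟩
    have hgood : ∀ (N : ℕ) (S : Finset ℕ), (∀ n ∈ S, Sifted f ((N : ℝ) ^ κ) n) →
        ∀ n ∈ S, Pool.Agent.K7.H64.LS.Good f κ N n := by
      intro N S hS n hn
      rcases hS n hn with h | h
      · exact Or.inr h
      · exact Or.inl h
    refine ⟨?_, ?_⟩
    · obtain ⟨C, hC, h⟩ := Pool.Agent.K7.H64.LS.lsf_real f hsys hκ
      exact ⟨C, hC, fun A N S hN hSI hS k α δ hδ hsep a =>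
        h N hN A S hSI (hgood N S hS) k α δ hδ hsep a⟩
    · intro p hp
      obtain ⟨C, hC, h⟩ := Pool.Agent.K7.H64.LS.restr_real f hsys hκ hp
      refine ⟨C, hC, fun A N S hN hSI hS a => ?_⟩
      refine (h N hN A S hSI (hgood N S hS) a).trans (le_of_eq ?_)
      have hN0 : (0 : ℝ) < N := by
        have : (2 : ℝ) ≤ N := by exact_mod_cast hN
        linarith
      have hlN : 0 < Real.log N := Real.log_pos (by
        have : (2 : ℝ) ≤ N := by exact_mod_cast hN
        linarith)
      have hG : 0 ≤ ∑ n ∈ S, ‖a n‖ ^ 2 := sum_nonneg fun i _ => by positivity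
      rw [show (N : ℝ) / Real.log N ^ Fintype.card ι * ∑ n ∈ S, ‖a n‖ ^ 2 =
        N * ((∑ n ∈ S, ‖a n‖ ^ 2) / Real.log N ^ Fintype.card ι) by ring,
        Real.mul_rpow hN0.le (by positivity), Real.div_rpow hG (by positivity),
        Real.rpow_sub hN0, Real.rpow_one]
      ring

end Pool.Agent.Results.MP_22d6bb_nt.RestrictionTheorem
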